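import Pool.Agent.H32.HallD.Crit

/-!
# A criterion for the property `(*)_π`

Let `G` be a finite group with a Hall `π`-subgroup, and let `r` be such that in every `π`-subgroup `L` of `G` every
`π ∖ {r}`-subgroup of `L` is normal.  Then `G` has the property `(*)_π`.
-/

set_option autoImplicit false

namespace Pool.Agent.Results.MP_d10554_al.HallCriterion

open Pool.Agent.H32.HallD

theorem result (G : Type) [Group G] [Finite G] (π : Set ℕ) (r : ℕ)
    (hN : ∀ L B : Subgroup G, PiSubgroup π L → B ≤ L → PiSubgroup (π \ {r}) B → ∀ x ∈ L, ∀ b ∈ B, x * b * x⁻¹ ∈ B)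
    (hE : EPi π G) : Star π G :=
  star_of_normal (r := r) hN hE

end Pool.Agent.Results.MP_d10554_al.HallCriterion
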