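import Pool.Agent.H32.HallR.IB

/-!
# Groups `PSL_r(q)`, `r` an odd prime, which are `D_π`-groups without the property `(*)_π`

Let `r` be an odd prime in `π` and `F₀ ⊆ F` finite fields, `q₀ = |F₀|`, `q = |F|`, such that `r` divides `q - 1` but none of the
numbers `q₀ ^ i - 1` with `0 < i < r - 1`, `r ^ 2` does not divide `q₀ ^ (r - 1) - 1`, the primes `t ≠ r` of `π` which divide
the order of `PSL_r(F)` are greater than `r` and divide `q - 1`, those which divide the order of `SL_r(F₀)` divide `q₀ - 1`, and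
there is a prime `t ≠ r` of `π` which divides `q₀ - 1`.  Then `PSL_r(F)` is a `D_π`-group without the property `(*)_π`.
-/

set_option autoImplicit false

namespace Pool.Agent.Results.MP_d10554_al.HallExceptionsR

open Pool.Agent.H32.HallD Pool.Agent.H32.HallR

theorem result (r : ℕ) (hr : r.Prime) (hr2 : r ≠ 2) (π : Set ℕ) (hrπ : r ∈ π) (F₀ F : Type) [Field F₀] [Finite F₀] [Field F] [Finite F]
    (f : F₀ →+* F) (hrF : r ∣ Nat.card F - 1) (hord : ∀ i, 0 < i → i < r - 1 → ¬ r ∣ Nat.card F₀ ^ i - 1)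
    (hsq : ¬ r ^ 2 ∣ Nat.card F₀ ^ (r - 1) - 1)
    (hτ : ∀ t ∈ π, t.Prime → t ≠ r → t ∣ Nat.card (Matrix.ProjectiveSpecialLinearGroup (Fin r) F) → r < t ∧ t ∣ Nat.card F - 1)
    (hτ₀ : ∀ t ∈ π, t.Prime → t ≠ r → t ∣ Nat.card (Matrix.SpecialLinearGroup (Fin r) F₀) → t ∣ Nat.card F₀ - 1)
    (hex : ∃ t ∈ π, t.Prime ∧ t ≠ r ∧ t ∣ Nat.card F₀ - 1) :
    DPi π (Matrix.ProjectiveSpecialLinearGroup (Fin r) F) ∧ ¬ Star π (Matrix.ProjectiveSpecialLinearGroup (Fin r) F) :=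
  exceptionsR hr hr2 hrπ f hrF hord hsq hτ hτ₀ hex

end Pool.Agent.Results.MP_d10554_al.HallExceptionsR
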