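import Pool.Agent.H32.HallR.IB

/-!
# A group with the property `(*)_π` contains none of certain groups `SL_r(q₀)`

Let `r` be an odd prime in `π` and `F₀` a field with `q₀` elements, such that `r` divides neither `q₀` nor `q₀ ^ i - 1` for
`0 < i < r - 1`, `r ^ 2` does not divide `q₀ ^ (r - 1) - 1`, the primes `t ≠ r` of `π` which divide the order of `SL_r(F₀)` are
greater than `r` and divide `q₀ - 1`, and there is a prime `t ≠ r` of `π` which divides `q₀ - 1`.  Then no finite group with a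
subgroup isomorphic to `SL_r(F₀)` has the property `(*)_π`.
-/

set_option autoImplicit false

namespace Pool.Agent.Results.MP_d10554_al.HallExclusion

open Pool.Agent.H32.HallD Pool.Agent.H32.HallR

theorem result (r : ℕ) (hr : r.Prime) (hr2 : r ≠ 2) (π : Set ℕ) (hrπ : r ∈ π) (F₀ : Type) [Field F₀] [Finite F₀]
    (hq₀ : ¬ r ∣ Nat.card F₀) (hord : ∀ i, 0 < i → i < r - 1 → ¬ r ∣ Nat.card F₀ ^ i - 1)
    (hsq : ¬ r ^ 2 ∣ Nat.card F₀ ^ (r - 1) - 1)
    (hτ₀ : ∀ t ∈ π, t.Prime → t ≠ r → t ∣ Nat.card (Matrix.SpecialLinearGroup (Fin r) F₀) → r < t ∧ t ∣ Nat.card F₀ - 1)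
    (hex : ∃ t ∈ π, t.Prime ∧ t ≠ r ∧ t ∣ Nat.card F₀ - 1) (G : Type) [Group G] [Finite G]
    (φ : Matrix.SpecialLinearGroup (Fin r) F₀ →* G) (hφ : Function.Injective φ) : ¬ Star π G :=
  not_star hr hr2 hrπ hq₀ hord hsq hτ₀ hex φ hφ

end Pool.Agent.Results.MP_d10554_al.HallExclusion
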