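import Pool.Agent.H32.HallD.FinalB

/-!
# The groups `PSL₂(q)`: the property `(*)_π` for every set `π`

For every field `F` with `q ≥ 4` elements and every set `π` the group `PSL₂(F)` has the property `(*)_π` if and only if it is
a `D_π`-group, and if and only if the pair is in the list `Lst`.
-/

set_option autoImplicit false

namespace Pool.Agent.Results.MP_d10554_al.HallPSLTwo

open Pool.Agent.H32.HallD

theorem result (F : Type) [Field F] [Finite F] (hq : 4 ≤ Nat.card F) (π : Set ℕ) :
    (Star π (Matrix.ProjectiveSpecialLinearGroup (Fin 2) F) ↔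
      Lst π (Nat.card (Matrix.ProjectiveSpecialLinearGroup (Fin 2) F)) (Nat.card F)) ∧
    (DPi π (Matrix.ProjectiveSpecialLinearGroup (Fin 2) F) ↔ Star π (Matrix.ProjectiveSpecialLinearGroup (Fin 2) F)) :=
  ⟨(psl_two hq π).1, (psl_two hq π).2.trans (psl_two hq π).1.symm⟩

end Pool.Agent.Results.MP_d10554_al.HallPSLTwo
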